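import Pool.Agent.Helper86.QA.St5

/-!
# Project QD, part A, module AV3: small discs, the pairing with the pulled back cocycle
-/

set_option autoImplicit false

open MeasureTheory Matrix Set Topology Filter
open scoped ENNReal ComplexConjugate ComplexOrder

namespace Pool.Agent.Helper12.QA

open Pool.Agent.Helper86.QA Pool.Agent.Helper20
open Pool.Agent.Helper20.QD (dz dzb)

private theorem dt2_bound (u v : ℂ) : |dt2 u v| ≤ ‖u‖ * ‖v‖ := by
  have h : dt2 u v = (conj u * v).im := by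
    simp [dt2]
    ring
  rw [h]
  calc |(conj u * v).im| ≤ ‖conj u * v‖ := Complex.abs_im_le_norm _
    _ = ‖u‖ * ‖v‖ := by rw [norm_mul, RCLike.norm_conj]

private theorem dt2_diff (a b a' b' : ℂ) :
    |dt2 a b - dt2 a' b'| ≤ ‖a - a'‖ * ‖b‖ + ‖a'‖ * ‖b - b'‖ := by
  have h : dt2 a b - dt2 a' b' = dt2 (a - a') b + dt2 a' (b - b') := by
    simp [dt2]
    ring
  rw [h]
  exact (abs_add_le _ _).trans (add_le_add (dt2_bound _ _) (dt2_bound _ _))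

private theorem lin_eq (L : ℂ →L[ℝ] ℂ) (u : ℂ) :
    L u = (u.re : ℂ) * L 1 + (u.im : ℂ) * L Complex.I := by
  have h : u = u.re • (1 : ℂ) + u.im • Complex.I := by
    apply Complex.ext <;> simp
  conv_lhs => rw [h]
  rw [map_add, map_smul, map_smul]
  simp [Complex.real_smul]

private theorem dt2_map (L : ℂ →L[ℝ] ℂ) (u v : ℂ) :
    dt2 (L u) (L v) = dt2 (L 1) (L Complex.I) * dt2 u v := by
  rw [lin_eq L u, lin_eq L v]
  simp [dt2]
  ring

private theorem det_eq (L : ℂ →L[ℝ] ℂ) : L.det = dt2 (L 1) (L Complex.I) := by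
  show LinearMap.det (L : ℂ →ₗ[ℝ] ℂ) = _
  rw [← LinearMap.det_toMatrix Complex.basisOneI, Matrix.det_fin_two]
  simp [LinearMap.toMatrix_apply, dt2, Complex.coe_basisOneI_repr, Complex.coe_basisOneI]
  ring

private theorem dzz (E : ℂ → ℂ) (z : ℂ) : ‖dz E z‖ ^ 2 - ‖dzb E z‖ ^ 2 =
    dt2 (fderiv ℝ E z 1) (fderiv ℝ E z Complex.I) := by
  unfold dz dzb
  generalize fderiv ℝ E z 1 = a
  generalize fderiv ℝ E z Complex.I = b
  rw [← Complex.normSq_eq_norm_sq, ← Complex.normSq_eq_norm_sq, Complex.normSq_apply,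
    Complex.normSq_apply]
  simp [dt2]
  ring

private theorem mq_zero (u : ℂ) : mq 0 u = u := by simp [mq]

private theorem pm_sub {x u : ℂ} (hx : ‖x‖ < 1) (hu : ‖u‖ ≤ 1 / 2) :
    ‖pm x u - x‖ ≤ 2 * ‖u‖ ∧
      ‖pm x u - x - ((1 - ‖x‖ ^ 2 : ℝ) : ℂ) * u‖ ≤ 2 * ‖u‖ ^ 2 := by
  have h1 : ‖conj x * u‖ ≤ ‖u‖ := by
    rw [norm_mul, RCLike.norm_conj]
    nlinarith [norm_nonneg x, norm_nonneg u]
  have h2 : 1 / 2 ≤ ‖1 + conj x * u‖ := by
    have := norm_sub_norm_le (1 : ℂ) (-(conj x * u))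
    rw [norm_neg, norm_one, sub_neg_eq_add] at this
    linarith
  have hne : 1 + conj x * u ≠ 0 := by
    rw [← norm_pos_iff]; linarith
  have hxx : ((‖x‖ ^ 2 : ℝ) : ℂ) = x * conj x := by
    rw [Complex.mul_conj, Complex.normSq_eq_norm_sq]
  have e1 : pm x u - x = ((1 - ‖x‖ ^ 2 : ℝ) : ℂ) * u / (1 + conj x * u) := by
    unfold pm
    rw [Complex.ofReal_sub, hxx, Complex.ofReal_one, eq_div_iff hne, sub_mul,
      div_mul_cancel₀ _ hne]
    ring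
  have e2 : pm x u - x - ((1 - ‖x‖ ^ 2 : ℝ) : ℂ) * u =
      -(((1 - ‖x‖ ^ 2 : ℝ) : ℂ) * u * (conj x * u)) / (1 + conj x * u) := by
    rw [e1, eq_div_iff hne, sub_mul, div_mul_cancel₀ _ hne]
    ring
  have h3 : ‖((1 - ‖x‖ ^ 2 : ℝ) : ℂ)‖ ≤ 1 := by
    rw [Complex.norm_real, Real.norm_eq_abs, abs_of_nonneg (by nlinarith [norm_nonneg x])]
    nlinarith [norm_nonneg x]
  have h4 : ‖((1 - ‖x‖ ^ 2 : ℝ) : ℂ) * u‖ ≤ ‖u‖ := by
    rw [norm_mul]
    nlinarith [norm_nonneg u]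
  constructor
  · rw [e1, norm_div, div_le_iff₀ (by linarith)]
    nlinarith [norm_nonneg u]
  · rw [e2, norm_div, norm_neg, norm_mul, div_le_iff₀ (by linarith)]
    have h5 : ‖((1 - ‖x‖ ^ 2 : ℝ) : ℂ) * u‖ * ‖conj x * u‖ ≤ ‖u‖ * ‖u‖ :=
      mul_le_mul h4 h1 (norm_nonneg _) (norm_nonneg _)
    nlinarith [sq_nonneg ‖u‖]

/-- uniform differentiability -/
private theorem unif (E : ℂ → ℂ) (hE : ContDiffOn ℝ 1 E (Metric.ball 0 1)) (r : ℝ) (hr : r < 1) :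
    ∃ M : ℝ, 0 ≤ M ∧ (∀ x ∈ Metric.closedBall (0 : ℂ) r, ‖fderiv ℝ E x‖ ≤ M) ∧
    ∀ η > 0, ∃ ε1 > 0, ε1 ≤ 1 / 2 ∧ ∀ x ∈ Metric.closedBall (0 : ℂ) r, ∀ u : ℂ, ‖u‖ < ε1 →
      ‖E (pm x u) - E x - fderiv ℝ E x (((1 - ‖x‖ ^ 2 : ℝ) : ℂ) * u)‖ ≤ η * ‖u‖ := by
  set r' : ℝ := (1 + r) / 2 with hr'
  have hr1 : r' < 1 := by rw [hr']; linarith
  have hrr : r < r' := by rw [hr']; linarith
  have hsub : Metric.closedBall (0 : ℂ) r' ⊆ Metric.ball 0 1 := Metric.closedBall_subset_ball hr1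
  have hcd : ContinuousOn (fderiv ℝ E) (Metric.ball 0 1) :=
    hE.continuousOn_fderiv_of_isOpen Metric.isOpen_ball le_rfl
  have hK' : IsCompact (Metric.closedBall (0 : ℂ) r') := isCompact_closedBall _ _
  obtain ⟨M, hM⟩ := hK'.exists_bound_of_continuousOn (hcd.mono hsub)
  have huc := hK'.uniformContinuousOn_of_continuous (hcd.mono hsub)
  rw [Metric.uniformContinuousOn_iff] at huc
  have hxK' : ∀ x ∈ Metric.closedBall (0 : ℂ) r, x ∈ Metric.closedBall (0 : ℂ) r' :=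
    fun x hx => Metric.closedBall_subset_closedBall hrr.le hx
  refine ⟨max M 0, le_max_right _ _, fun x hx => (hM x (hxK' x hx)).trans (le_max_left _ _), ?_⟩
  intro η hη
  obtain ⟨δ, hδ, huc⟩ := huc (η / 4) (by positivity)
  set M' : ℝ := max M 0 with hM'
  have hM'0 : 0 ≤ M' := le_max_right _ _
  refine ⟨min (min (1 / 2) ((1 - r) / 4)) (min (δ / 2) (η / (4 * (M' + 1)))), ?_, ?_, ?_⟩
  · have : 0 < 1 - r := by linarith
    positivity
  · exact (min_le_left _ _).trans (min_le_left _ _)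
  intro x hx u hu
  have u1 : ‖u‖ < 1 / 2 := hu.trans_le ((min_le_left _ _).trans (min_le_left _ _))
  have u2 : ‖u‖ < (1 - r) / 4 := hu.trans_le ((min_le_left _ _).trans (min_le_right _ _))
  have u3 : ‖u‖ < δ / 2 := hu.trans_le ((min_le_right _ _).trans (min_le_left _ _))
  have u4 : ‖u‖ < η / (4 * (M' + 1)) := hu.trans_le ((min_le_right _ _).trans (min_le_right _ _))
  have hxn : ‖x‖ ≤ r := by simpa using hx
  obtain ⟨p1, p2⟩ := pm_sub (x := x) (u := u) (by linarith) u1.le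
  set y := pm x u with hy
  -- the convex set
  have hconv : Convex ℝ (Metric.closedBall (0 : ℂ) r' ∩ Metric.closedBall x (2 * ‖u‖)) :=
    (convex_closedBall _ _).inter (convex_closedBall _ _)
  have hxs : x ∈ Metric.closedBall (0 : ℂ) r' ∩ Metric.closedBall x (2 * ‖u‖) :=
    ⟨hxK' x hx, by simp⟩
  have hys : y ∈ Metric.closedBall (0 : ℂ) r' ∩ Metric.closedBall x (2 * ‖u‖) := by
    constructor
    · rw [mem_closedBall_zero_iff]
      have h1 := norm_add_le (y - x) x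
      rw [sub_add_cancel] at h1
      rw [hr']; linarith
    · rw [Metric.mem_closedBall, dist_eq_norm]
      exact p1
  have hmv := Convex.norm_image_sub_le_of_norm_hasFDerivWithin_le' (f := E)
    (f' := fun z => fderiv ℝ E z) (φ := fderiv ℝ E x) (C := η / 4)
    (s := Metric.closedBall (0 : ℂ) r' ∩ Metric.closedBall x (2 * ‖u‖)) (x := x) (y := y)
    (fun z hz => (((hE.differentiableOn one_ne_zero).differentiableAt
      (Metric.isOpen_ball.mem_nhds (hsub hz.1))).hasFDerivAt).hasFDerivWithinAt)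
    (fun z hz => by
      have h1 := huc z hz.1 x (hxK' x hx) (by
        have := hz.2
        rw [Metric.mem_closedBall] at this
        linarith)
      rw [dist_eq_norm] at h1
      exact h1.le) hconv hxs hys
  have e1 : E y - E x - fderiv ℝ E x (((1 - ‖x‖ ^ 2 : ℝ) : ℂ) * u) =
      (E y - E x - fderiv ℝ E x (y - x)) +
        fderiv ℝ E x (y - x - ((1 - ‖x‖ ^ 2 : ℝ) : ℂ) * u) := by
    rw [map_sub (fderiv ℝ E x) (y - x)]
    ring
  rw [e1]
  have h2 : ‖fderiv ℝ E x (y - x - ((1 - ‖x‖ ^ 2 : ℝ) : ℂ) * u)‖ ≤ M' * (2 * ‖u‖ ^ 2) :=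
    ((fderiv ℝ E x).le_opNorm _).trans
      (mul_le_mul ((hM x (hxK' x hx)).trans (le_max_left _ _)) p2 (norm_nonneg _) hM'0)
  have h3 : M' * (2 * ‖u‖ ^ 2) ≤ η / 2 * ‖u‖ := by
    rw [lt_div_iff₀ (by positivity)] at u4
    have hu0 := norm_nonneg u
    have h4 : M' * ‖u‖ ≤ η / 4 := by nlinarith
    have h5 := mul_le_mul_of_nonneg_right h4 hu0
    nlinarith
  have h4 : ‖E y - E x - fderiv ℝ E x (y - x)‖ ≤ η / 2 * ‖u‖ := by
    refine hmv.trans ?_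
    have := mul_le_mul_of_nonneg_left p1 (by positivity : 0 ≤ η / 4)
    linarith
  calc _ ≤ _ := norm_add_le _ _
    _ ≤ η / 2 * ‖u‖ + η / 2 * ‖u‖ := add_le_add h4 (h2.trans h3)
    _ = η * ‖u‖ := by ring

/-- the pointwise estimate -/
private theorem est (hAD1 : StAD1) (E : ℂ → ℂ) (hE : ContDiffOn ℝ 1 E (Metric.ball 0 1))
    (hmap : MapsTo E (Metric.ball 0 1) (Metric.ball 0 1)) (r : ℝ) (hr : r < 1) :
    ∀ η > 0, ∃ ε1 > 0, ∀ x ∈ Metric.closedBall (0 : ℂ) r, ∀ ε : ℝ, ε < ε1 → ∀ u v : ℂ,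
      ‖u‖ < ε → ‖v‖ < ε →
      |Ad (E x) (E (pm x u)) (E (pm x v)) - 2 * Jh E x * dt2 u v| ≤ η * ε ^ 2 := by
  intro η hη
  rcases (Metric.closedBall (0 : ℂ) r).eq_empty_or_nonempty with he | hne
  · refine ⟨1, one_pos, fun x hx => ?_⟩
    rw [he] at hx
    exact absurd hx (notMem_empty x)
  have hsub : Metric.closedBall (0 : ℂ) r ⊆ Metric.ball 0 1 := Metric.closedBall_subset_ball hr
  -- the image is compact in the disc
  obtain ⟨x₁, hx₁, hmax⟩ := (isCompact_closedBall (0 : ℂ) r).exists_isMaxOn hne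
    ((hE.continuousOn.mono hsub).norm)
  set ρ : ℝ := ‖E x₁‖ with hρ
  have hρ1 : ρ < 1 := by
    have := hmap (hsub hx₁)
    rwa [mem_ball_zero_iff] at this
  have hEx : ∀ x ∈ Metric.closedBall (0 : ℂ) r, ‖E x‖ ≤ ρ := fun x hx => hmax hx
  have hρ0 : 0 ≤ ρ := norm_nonneg _
  obtain ⟨C, hC, δ0, hδ0, hAd⟩ := hAD1.2.2.2.2.2.2 ρ hρ1
  obtain ⟨M, hM0, hM, hU⟩ := unif E hE r hr
  have hρ2 : 0 < 1 - ρ ^ 2 := by nlinarith
  -- constants
  set W : ℝ := 4 * (M + 1) / (1 - ρ ^ 2) ^ 2 with hW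
  have hW0 : 0 ≤ W := by positivity
  set η1 : ℝ := min 1 (η / (2 * (W + 1))) with hη1
  have hη10 : 0 < η1 := by positivity
  obtain ⟨ε1, hε1, hε12, hU1⟩ := hU η1 hη10
  refine ⟨min ε1 (min (δ0 / (M + 1)) (η / (2 * (C * (2 * (M + 1)) ^ 3 + 1)))), by positivity, ?_⟩
  intro x hx ε hε u v hu hv
  have hε' : ε < ε1 := hε.trans_le (min_le_left _ _)
  have hε2 : ε < δ0 / (M + 1) := hε.trans_le ((min_le_right _ _).trans (min_le_left _ _))
  have hε3 : ε < η / (2 * (C * (2 * (M + 1)) ^ 3 + 1)) :=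
    hε.trans_le ((min_le_right _ _).trans (min_le_right _ _))
  have hε0 : 0 < ε := (norm_nonneg u).trans_lt hu
  have hxn : ‖x‖ ≤ 1 := by
    have : ‖x‖ ≤ r := by simpa using hx
    linarith
  have hsc : ∀ w : ℂ, ‖((1 - ‖x‖ ^ 2 : ℝ) : ℂ) * w‖ ≤ ‖w‖ := by
    intro w
    rw [norm_mul, Complex.norm_real, Real.norm_eq_abs,
      abs_of_nonneg (by nlinarith [norm_nonneg x])]
    nlinarith [norm_nonneg x, norm_nonneg w, sq_nonneg ‖x‖, mul_nonneg (sq_nonneg ‖x‖)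
      (norm_nonneg w)]
  have main : ∀ w : ℂ, ‖w‖ < ε →
      ‖E (pm x w) - E x - fderiv ℝ E x (((1 - ‖x‖ ^ 2 : ℝ) : ℂ) * w)‖ ≤ η1 * ε ∧
      ‖fderiv ℝ E x (((1 - ‖x‖ ^ 2 : ℝ) : ℂ) * w)‖ ≤ M * ε ∧
      ‖E (pm x w) - E x‖ ≤ (M + 1) * ε := by
    intro w hw
    have h1 := hU1 x hx w (hw.trans hε')
    have h2 : η1 * ‖w‖ ≤ η1 * ε := mul_le_mul_of_nonneg_left hw.le hη10.le
    have h3 : ‖fderiv ℝ E x (((1 - ‖x‖ ^ 2 : ℝ) : ℂ) * w)‖ ≤ M * ε :=
      ((fderiv ℝ E x).le_opNorm _).trans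
        (mul_le_mul (hM x hx) ((hsc w).trans hw.le) (norm_nonneg _) hM0)
    refine ⟨h1.trans h2, h3, ?_⟩
    have h4 : E (pm x w) - E x = (E (pm x w) - E x
        - fderiv ℝ E x (((1 - ‖x‖ ^ 2 : ℝ) : ℂ) * w))
        + fderiv ℝ E x (((1 - ‖x‖ ^ 2 : ℝ) : ℂ) * w) := by ring
    rw [h4]
    have h5 : η1 * ε ≤ 1 * ε := mul_le_mul_of_nonneg_right (min_le_left _ _) hε0.le
    calc _ ≤ _ := norm_add_le _ _
      _ ≤ 1 * ε + M * ε := add_le_add ((h1.trans h2).trans h5) h3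
      _ = (M + 1) * ε := by ring
  obtain ⟨u1, u2, u3⟩ := main u hu
  obtain ⟨v1, v2, v3⟩ := main v hv
  have hsmall : (M + 1) * ε ≤ δ0 := by
    rw [lt_div_iff₀ (by positivity)] at hε2
    linarith
  have hA := hAd (E x) (hEx x hx) (E (pm x u) - E x) (E (pm x v) - E x)
    (u3.trans hsmall) (v3.trans hsmall)
  rw [add_sub_cancel, add_sub_cancel] at hA
  set a : ℂ := fderiv ℝ E x (((1 - ‖x‖ ^ 2 : ℝ) : ℂ) * u) with ha
  set b : ℂ := fderiv ℝ E x (((1 - ‖x‖ ^ 2 : ℝ) : ℂ) * v) with hb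
  have hJ : 2 * dt2 a b / (1 - ‖E x‖ ^ 2) ^ 2 = 2 * Jh E x * dt2 u v := by
    rw [ha, hb, dt2_map, ← dzz]
    have h1 : dt2 (((1 - ‖x‖ ^ 2 : ℝ) : ℂ) * u) (((1 - ‖x‖ ^ 2 : ℝ) : ℂ) * v) =
        (1 - ‖x‖ ^ 2) ^ 2 * dt2 u v := by
      unfold dt2
      rw [Complex.re_ofReal_mul, Complex.re_ofReal_mul, Complex.im_ofReal_mul,
        Complex.im_ofReal_mul]
      ring
    rw [h1]
    unfold Jh
    ring
  have hd := dt2_diff (E (pm x u) - E x) (E (pm x v) - E x) a b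
  have hd2 : |dt2 (E (pm x u) - E x) (E (pm x v) - E x) - dt2 a b| ≤
      2 * (M + 1) * η1 * ε ^ 2 := by
    have h1 : ‖E (pm x u) - E x - a‖ * ‖E (pm x v) - E x‖ ≤ η1 * ε * ((M + 1) * ε) :=
      mul_le_mul u1 v3 (norm_nonneg _) (by positivity)
    have h2 : ‖a‖ * ‖E (pm x v) - E x - b‖ ≤ M * ε * (η1 * ε) :=
      mul_le_mul u2 v1 (norm_nonneg _) (by positivity)
    have h3 : 0 ≤ η1 * ε ^ 2 := by positivity
    nlinarith
  have hEx2 : (1 - ρ ^ 2) ^ 2 ≤ (1 - ‖E x‖ ^ 2) ^ 2 := by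
    have h1 := hEx x hx
    have h2 : ‖E x‖ ^ 2 ≤ ρ ^ 2 := pow_le_pow_left₀ (norm_nonneg _) h1 2
    exact pow_le_pow_left₀ hρ2.le (by linarith) 2
  have hden : 0 < (1 - ‖E x‖ ^ 2) ^ 2 := lt_of_lt_of_le (by positivity) hEx2
  have e1 : |2 * dt2 (E (pm x u) - E x) (E (pm x v) - E x) / (1 - ‖E x‖ ^ 2) ^ 2
      - 2 * dt2 a b / (1 - ‖E x‖ ^ 2) ^ 2| ≤ W * η1 * ε ^ 2 := by
    rw [← sub_div, ← mul_sub, abs_div, abs_mul, abs_two, abs_of_pos hden, div_le_iff₀ hden]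
    have h1 : W * (1 - ρ ^ 2) ^ 2 = 4 * (M + 1) := by
      rw [hW]; field_simp
    have h2 : W * (1 - ρ ^ 2) ^ 2 ≤ W * (1 - ‖E x‖ ^ 2) ^ 2 := mul_le_mul_of_nonneg_left hEx2 hW0
    have h3 : 0 ≤ η1 * ε ^ 2 := by positivity
    have h4 := mul_le_mul_of_nonneg_right h2 h3
    rw [h1] at h4
    nlinarith
  have e2 : C * (‖E (pm x u) - E x‖ + ‖E (pm x v) - E x‖) ^ 3 ≤ η / 2 * ε ^ 2 := by
    have h1 : (‖E (pm x u) - E x‖ + ‖E (pm x v) - E x‖) ^ 3 ≤ (2 * (M + 1) * ε) ^ 3 := by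
      apply pow_le_pow_left₀ (by positivity)
      linarith
    rw [lt_div_iff₀ (by positivity)] at hε3
    have h2 : C * (2 * (M + 1)) ^ 3 * ε ≤ η / 2 := by nlinarith
    have h3 := mul_le_mul_of_nonneg_right h2 (sq_nonneg ε)
    calc _ ≤ C * (2 * (M + 1) * ε) ^ 3 := mul_le_mul_of_nonneg_left h1 hC.le
      _ = C * (2 * (M + 1)) ^ 3 * ε * ε ^ 2 := by ring
      _ ≤ _ := h3
  have e3 : W * η1 * ε ^ 2 ≤ η / 2 * ε ^ 2 := by
    apply mul_le_mul_of_nonneg_right _ (sq_nonneg ε)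
    have h1 : η1 ≤ η / (2 * (W + 1)) := min_le_right _ _
    have h2 : W * η1 ≤ W * (η / (2 * (W + 1))) := mul_le_mul_of_nonneg_left h1 hW0
    have h3 : W * (η / (2 * (W + 1))) ≤ η / 2 := by
      rw [mul_div_assoc', div_le_iff₀ (by positivity)]
      nlinarith
    linarith
  rw [← hJ]
  calc _ = |(Ad (E x) (E (pm x u)) (E (pm x v))
        - 2 * dt2 (E (pm x u) - E x) (E (pm x v) - E x) / (1 - ‖E x‖ ^ 2) ^ 2)
        + (2 * dt2 (E (pm x u) - E x) (E (pm x v) - E x) / (1 - ‖E x‖ ^ 2) ^ 2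
          - 2 * dt2 a b / (1 - ‖E x‖ ^ 2) ^ 2)| := by
        congr 1; ring
    _ ≤ _ := abs_add_le _ _
    _ ≤ η / 2 * ε ^ 2 + η / 2 * ε ^ 2 := add_le_add (hA.trans e2) (e1.trans e3)
    _ = η * ε ^ 2 := by ring

private theorem rho (E : ℂ → ℂ) (hE : ContinuousOn E (Metric.ball 0 1))
    (hmap : MapsTo E (Metric.ball 0 1) (Metric.ball 0 1)) (r : ℝ) (hr : r < 1) :
    ∃ ρ : ℝ, 0 ≤ ρ ∧ ρ < 1 ∧ ∀ x ∈ Metric.closedBall (0 : ℂ) r, ‖E x‖ ≤ ρ := by
  rcases (Metric.closedBall (0 : ℂ) r).eq_empty_or_nonempty with he | hne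
  · refine ⟨0, le_rfl, one_pos, fun x hx => ?_⟩
    rw [he] at hx
    exact absurd hx (notMem_empty x)
  have hsub : Metric.closedBall (0 : ℂ) r ⊆ Metric.ball 0 1 := Metric.closedBall_subset_ball hr
  obtain ⟨x₁, hx₁, hmax⟩ := (isCompact_closedBall (0 : ℂ) r).exists_isMaxOn hne
    ((hE.mono hsub).norm)
  refine ⟨‖E x₁‖, norm_nonneg _, ?_, fun x hx => hmax hx⟩
  have := hmap (hsub hx₁)
  rwa [mem_ball_zero_iff] at this

private theorem int_bdd {α : Type} [MeasurableSpace α] {μ : Measure α} {S : Set α}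
    (hSf : μ S ≠ ∞) {f : α → ℝ} (hf : AEStronglyMeasurable f μ) (C : ℝ)
    (hb : ∀ p ∈ S, |f p| ≤ C) (hS : MeasurableSet S) (h0 : ∀ p, p ∉ S → f p = 0) :
    Integrable f μ := by
  rw [← integrableOn_iff_integrable_of_support_subset (s := S)
    (fun p hp => by_contra fun h => hp (h0 p h))]
  refine Measure.integrableOn_of_bounded hSf hf (M := C) ?_
  exact (ae_restrict_iff' hS).2 (ae_of_all _ fun p hp => hb p hp)

private theorem norm_int {α : Type} [MeasurableSpace α] {μ : Measure α} {S : Set α}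
    (hSf : μ S ≠ ∞) {f : α → ℝ} (C : ℝ)
    (hb : ∀ p ∈ S, |f p| ≤ C) (h0 : ∀ p, p ∉ S → f p = 0) :
    |∫ p, f p ∂μ| ≤ C * (μ S).toReal := by
  rw [← setIntegral_eq_integral_of_forall_compl_eq_zero h0]
  have h := norm_setIntegral_le_of_norm_le_const (f := f) (lt_top_iff_ne_top.2 hSf)
    (fun p hp => (Real.norm_eq_abs (f p)).le.trans (hb p hp))
  exact h

private theorem pm_meas (x : ℂ) : Measurable (pm x) := by
  unfold pm
  fun_prop

private theorem pm_mp (hMQ1 : StMQ1) (x : ℂ) (hx : x ∈ Metric.ball (0 : ℂ) 1) :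
    MeasurePreserving (pm x) m2 m2 := by
  obtain ⟨-, hD, hinv, hex, -, -, -⟩ := hMQ1
  obtain ⟨A, hSU, hmq, -, hxy⟩ := hex x hx
  refine ⟨pm_meas x, ?_⟩
  ext s hs
  rw [Measure.map_apply (pm_meas x) hs]
  have h1 := hinv A hSU (fun z => s.indicator 1 (pm x z))
    ((measurable_one.indicator hs).comp (pm_meas x))
  have h2 : ∫⁻ z, s.indicator 1 (pm x z) ∂m2 = m2 (pm x ⁻¹' s) := by
    have h3 : (fun z => s.indicator (1 : ℂ → ℝ≥0∞) (pm x z)) =
        (pm x ⁻¹' s).indicator 1 := by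
      funext z; rfl
    rw [h3, lintegral_indicator_one (pm_meas x hs)]
  have h4 : ∫⁻ z, s.indicator 1 (pm x (QD.mob A z)) ∂m2 = m2 s := by
    rw [← lintegral_indicator_one hs]
    apply lintegral_congr_ae
    have h5 : ∀ᵐ z ∂m2, z ∈ Metric.ball (0 : ℂ) 1 := by
      rw [ae_iff]; exact hD
    filter_upwards [h5] with z hz
    rw [← hmq z, (hxy z hz).2.1]
  rw [← h2, ← h1, h4]

private theorem K2_pm (hMQ1 : StMQ1) (ε : ℝ) (x : ℂ) (hx : x ∈ Metric.ball (0 : ℂ) 1) (u v : ℂ)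
    (hu : u ∈ Metric.ball (0 : ℂ) 1) (hv : v ∈ Metric.ball (0 : ℂ) 1) :
    K2 ε x (pm x u) (pm x v) = K2 ε 0 u v := by
  obtain ⟨A, -, -, -, hxy⟩ := hMQ1.2.2.2.1 x hx
  unfold K2 k2
  rw [(hxy u hu).1, (hxy v hv).1, mq_zero, mq_zero]

private theorem K2_zero_off (ε : ℝ) (p : ℂ × ℂ)
    (hp : p ∉ Metric.ball (0 : ℂ) ε ×ˢ Metric.ball (0 : ℂ) ε) : K2 ε 0 p.1 p.2 = 0 := by
  unfold K2 k2
  rw [mq_zero, mq_zero]
  by_cases h1 : ‖p.1‖ < ε
  · by_cases h2 : ‖p.2‖ < ε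
    · exact absurd ⟨by simpa using h1, by simpa using h2⟩ hp
    · rw [if_neg h2, mul_zero]
  · rw [if_neg h1, mul_zero, zero_mul]

private theorem K2_le (ε : ℝ) (p : ℂ × ℂ)
    (hp : p ∈ Metric.ball (0 : ℂ) ε ×ˢ Metric.ball (0 : ℂ) ε) : |K2 ε 0 p.1 p.2| ≤ ε ^ 2 := by
  have h1 : ‖p.1‖ < ε := by simpa using hp.1
  have h2 : ‖p.2‖ < ε := by simpa using hp.2
  unfold K2 k2
  rw [mq_zero, mq_zero, if_pos h1, if_pos h2, mul_one, mul_one]
  refine (dt2_bound _ _).trans ?_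
  rw [sq]
  exact mul_le_mul h1.le h2.le (norm_nonneg _) ((norm_nonneg _).trans h1.le)

private theorem comp3 {α : Type} [MeasurableSpace α] (K : ℂ → ℂ → ℂ → ℝ)
    (hK : Measurable (fun p : ℂ × ℂ × ℂ => K p.1 p.2.1 p.2.2)) (f g h : α → ℂ)
    (hf : Measurable f) (hg : Measurable g) (hh : Measurable h) :
    Measurable (fun a => K (f a) (g a) (h a)) := by
  have := hK.comp (hf.prodMk (hg.prodMk hh))
  exact this

/-- the inner integral -/
private theorem inner_est (hAD1 : StAD1) (hMQ1 : StMQ1) (hMQ2 : StMQ2) (E : ℂ → ℂ)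
    (hEm : Measurable E) (hmap : MapsTo E (Metric.ball 0 1) (Metric.ball 0 1))
    (x : ℂ) (hx : x ∈ Metric.ball (0 : ℂ) 1) (ε η : ℝ) (hε : 0 < ε) (hε1 : ε < 1)
    (hest : ∀ u v : ℂ, ‖u‖ < ε → ‖v‖ < ε →
      |Ad (E x) (E (pm x u)) (E (pm x v)) - 2 * Jh E x * dt2 u v| ≤ η * ε ^ 2) :
    |(∫ p : ℂ × ℂ, K2 ε x p.1 p.2 * Ad (E x) (E p.1) (E p.2) ∂(m2.prod m2))
      - Jh E x * (2 * ∫ p : ℂ × ℂ, K2 ε 0 p.1 p.2 * dt2 p.1 p.2 ∂(m2.prod m2))| ≤
      ε ^ 2 * (η * ε ^ 2) *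
        ((m2.prod m2) (Metric.ball (0 : ℂ) ε ×ˢ Metric.ball (0 : ℂ) ε)).toReal := by
  have := hMQ1.1
  have hmp := pm_mp hMQ1 x hx
  have hKm : Measurable (fun p : ℂ × ℂ × ℂ => K2 ε p.1 p.2.1 p.2.2) := (hMQ2 ε hε hε1).2.2.2.1
  have hAm : Measurable (fun p : ℂ × ℂ × ℂ => Ad p.1 p.2.1 p.2.2) := hAD1.2.2.2.1
  have hK1 : ∀ y : ℂ, Measurable (fun p : ℂ × ℂ => K2 ε y p.1 p.2) := by
    intro y
    have h := comp3 (α := ℂ × ℂ) (K2 ε) hKm (fun _ => y) (fun p => p.1) (fun p => p.2)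
      measurable_const measurable_fst measurable_snd
    exact h
  have hA1 : Measurable (fun p : ℂ × ℂ => Ad (E x) (E p.1) (E p.2)) := by
    have h := comp3 (α := ℂ × ℂ) Ad hAm (fun _ => E x) (fun p => E p.1) (fun p => E p.2)
      measurable_const (hEm.comp measurable_fst) (hEm.comp measurable_snd)
    exact h
  have hA2 : Measurable (fun p : ℂ × ℂ => Ad (E x) (E (pm x p.1)) (E (pm x p.2))) := by
    have h := comp3 (α := ℂ × ℂ) Ad hAm (fun _ => E x) (fun p => E (pm x p.1))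
      (fun p => E (pm x p.2)) measurable_const ((hEm.comp (pm_meas x)).comp measurable_fst)
      ((hEm.comp (pm_meas x)).comp measurable_snd)
    exact h
  have hdm : Measurable (fun p : ℂ × ℂ => dt2 p.1 p.2) := by
    unfold dt2
    fun_prop
  have m1 : Measurable (fun p : ℂ × ℂ =>
      K2 ε 0 p.1 p.2 * Ad (E x) (E (pm x p.1)) (E (pm x p.2))) := (hK1 0).mul hA2
  have m2' : Measurable (fun p : ℂ × ℂ => K2 ε 0 p.1 p.2 * dt2 p.1 p.2) := (hK1 0).mul hdm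
  have m3 : Measurable (fun p : ℂ × ℂ => K2 ε x p.1 p.2 * Ad (E x) (E p.1) (E p.2)) :=
    (hK1 x).mul hA1
  -- substitution
  have hprod := hmp.prod hmp
  have hsubst : ∫ p : ℂ × ℂ, K2 ε x p.1 p.2 * Ad (E x) (E p.1) (E p.2) ∂(m2.prod m2) =
      ∫ p : ℂ × ℂ, K2 ε 0 p.1 p.2 * Ad (E x) (E (pm x p.1)) (E (pm x p.2)) ∂(m2.prod m2) := by
    conv_lhs => rw [← hprod.map_eq]
    rw [integral_map (f := fun p : ℂ × ℂ => K2 ε x p.1 p.2 * Ad (E x) (E p.1) (E p.2))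
      hprod.measurable.aemeasurable m3.aestronglyMeasurable]
    apply integral_congr_ae
    have h5 : ∀ᵐ z ∂m2, z ∈ Metric.ball (0 : ℂ) 1 := by
      rw [ae_iff]; exact hMQ1.2.1
    have h6 := Measure.quasiMeasurePreserving_fst (μ := m2) (ν := m2) |>.ae h5
    have h7 := Measure.quasiMeasurePreserving_snd (μ := m2) (ν := m2) |>.ae h5
    filter_upwards [h6, h7] with p hp1 hp2
    show K2 ε x (pm x p.1) (pm x p.2) * Ad (E x) (E (pm x p.1)) (E (pm x p.2)) = _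
    rw [K2_pm hMQ1 ε x hx _ _ hp1 hp2]
  rw [hsubst]
  have hSm : MeasurableSet (Metric.ball (0 : ℂ) ε ×ˢ Metric.ball (0 : ℂ) ε) :=
    Metric.isOpen_ball.measurableSet.prod Metric.isOpen_ball.measurableSet
  have hSf : (m2.prod m2) (Metric.ball (0 : ℂ) ε ×ˢ Metric.ball (0 : ℂ) ε) ≠ ∞ := by
    rw [Measure.prod_prod]
    have h1 : m2 (Metric.ball (0 : ℂ) ε) < ∞ :=
      (measure_mono Metric.ball_subset_closedBall).trans_lt (hMQ1.2.2.2.2.2.2 ε hε1)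
    exact ENNReal.mul_ne_top h1.ne h1.ne
  have hin : ∀ u : ℂ, ‖u‖ < ε → pm x u ∈ Metric.ball (0 : ℂ) 1 := by
    intro u hu
    obtain ⟨A, -, -, -, hxy⟩ := hMQ1.2.2.2.1 x hx
    exact (hxy u (by rw [mem_ball_zero_iff]; linarith)).2.2.1
  have hDD : ∀ z ∈ Metric.ball (0 : ℂ) 1, E z ∈ Metric.closedBall (0 : ℂ) 1 :=
    fun z hz => Metric.ball_subset_closedBall (hmap hz)
  have i1 : Integrable (fun p : ℂ × ℂ =>
      K2 ε 0 p.1 p.2 * Ad (E x) (E (pm x p.1)) (E (pm x p.2))) (m2.prod m2) := by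
    refine int_bdd hSf m1.aestronglyMeasurable (ε ^ 2 * (3 * Real.pi)) ?_ hSm ?_
    · intro p hp
      rw [abs_mul]
      have h1 : ‖p.1‖ < ε := by simpa using hp.1
      have h2 : ‖p.2‖ < ε := by simpa using hp.2
      exact mul_le_mul (K2_le ε p hp) (hAD1.2.1 _ (hDD x hx) _ (hDD _ (hin _ h1)) _
        (hDD _ (hin _ h2))).1 (abs_nonneg _) (by positivity)
    · intro p hp
      rw [K2_zero_off ε p hp, zero_mul]
  have i2 : Integrable (fun p : ℂ × ℂ => K2 ε 0 p.1 p.2 * dt2 p.1 p.2) (m2.prod m2) := by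
    refine int_bdd hSf m2'.aestronglyMeasurable (ε ^ 2 * (ε * ε)) ?_ hSm ?_
    · intro p hp
      rw [abs_mul]
      have h1 : ‖p.1‖ < ε := by simpa using hp.1
      have h2 : ‖p.2‖ < ε := by simpa using hp.2
      exact mul_le_mul (K2_le ε p hp) ((dt2_bound _ _).trans
        (mul_le_mul h1.le h2.le (norm_nonneg _) hε.le)) (abs_nonneg _) (by positivity)
    · intro p hp
      rw [K2_zero_off ε p hp, zero_mul]
  have e1 : (∫ p : ℂ × ℂ, K2 ε 0 p.1 p.2 * Ad (E x) (E (pm x p.1)) (E (pm x p.2)) ∂(m2.prod m2))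
      - Jh E x * (2 * ∫ p : ℂ × ℂ, K2 ε 0 p.1 p.2 * dt2 p.1 p.2 ∂(m2.prod m2)) =
      ∫ p : ℂ × ℂ, K2 ε 0 p.1 p.2 * (Ad (E x) (E (pm x p.1)) (E (pm x p.2))
        - 2 * Jh E x * dt2 p.1 p.2) ∂(m2.prod m2) := by
    rw [← integral_const_mul, ← integral_const_mul,
      ← integral_sub i1 ((i2.const_mul 2).const_mul (Jh E x))]
    congr 1
    funext p
    ring
  rw [e1]
  apply norm_int hSf
  · intro p hp
    rw [abs_mul]
    have h1 : ‖p.1‖ < ε := by simpa using hp.1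
    have h2 : ‖p.2‖ < ε := by simpa using hp.2
    exact mul_le_mul (K2_le ε p hp) (hest _ _ h1 h2) (abs_nonneg _) (by positivity)
  · intro p hp
    rw [K2_zero_off ε p hp, zero_mul]

private theorem jh_meas (E : ℂ → ℂ) (hEm : Measurable E) : Measurable (Jh E) := by
  have h1 : Measurable (fun z => fderiv ℝ E z 1) := measurable_fderiv_apply_const ℝ E 1
  have h2 : Measurable (fun z => fderiv ℝ E z Complex.I) :=
    measurable_fderiv_apply_const ℝ E Complex.I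
  have h3 : Measurable (fun z => dz E z) := by
    unfold dz
    exact (h1.sub (h2.const_mul _)).div_const _
  have h4 : Measurable (fun z => dzb E z) := by
    unfold dzb
    exact (h1.add (h2.const_mul _)).div_const _
  have h5 : Measurable (fun z => ‖dz E z‖ ^ 2) := h3.norm.pow_const 2
  have h6 : Measurable (fun z => ‖dzb E z‖ ^ 2) := h4.norm.pow_const 2
  have h7 : Measurable (fun z : ℂ => (1 - ‖z‖ ^ 2) ^ 2) := by fun_prop
  have h8 : Measurable (fun z => (1 - ‖E z‖ ^ 2) ^ 2) :=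
    (measurable_const.sub (hEm.norm.pow_const 2)).pow_const 2
  have h9 : Measurable (fun z => (‖dz E z‖ ^ 2 - ‖dzb E z‖ ^ 2) * (1 - ‖z‖ ^ 2) ^ 2) :=
    (h5.sub h6).mul h7
  exact h9.div h8

private theorem m2_set (f : ℂ → ℝ≥0∞) (hf : Measurable f) (S : Set ℂ) (hS : MeasurableSet S)
    (hSD : S ⊆ Metric.ball 0 1) :
    ∫⁻ x in S, f x ∂m2 = ∫⁻ x in S, ENNReal.ofReal (4 / (1 - ‖x‖ ^ 2) ^ 2) * f x := by
  unfold m2
  rw [setLIntegral_withDensity_eq_setLIntegral_mul _ (by fun_prop) hf hS,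
    Measure.restrict_restrict hS, inter_eq_left.2 hSD]
  rfl

/-- the area of the image -/
private theorem area_img (E : ℂ → ℂ) (hEm : Measurable E) (F : Set ℂ) (hF : MeasurableSet F)
    (hFD : F ⊆ Metric.ball 0 1) (hE : ContDiffOn ℝ 1 E (Metric.ball 0 1))
    (hmap : MapsTo E (Metric.ball 0 1) (Metric.ball 0 1)) (hinj : InjOn E (Metric.ball 0 1))
    (hdz : ∀ z ∈ Metric.ball (0 : ℂ) 1, ‖dzb E z‖ < ‖dz E z‖) :
    m2 (E '' F) = ∫⁻ x in F, ENNReal.ofReal (Jh E x) ∂m2 := by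
  have himg : MeasurableSet (E '' F) :=
    hF.image_of_continuousOn_injOn (hE.continuousOn.mono hFD) (hinj.mono hFD)
  have hsub : E '' F ⊆ Metric.ball 0 1 := (hmap.mono_left hFD).image_subset
  have h1 : m2 (E '' F) = ∫⁻ z in E '' F, ENNReal.ofReal (4 / (1 - ‖z‖ ^ 2) ^ 2) := by
    have h2 := m2_set (fun _ => 1) measurable_const (E '' F) himg hsub
    rw [setLIntegral_one] at h2
    rw [h2]
    simp only [mul_one]
  rw [h1, lintegral_image_eq_lintegral_abs_det_fderiv_mul volume hF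
    (fun x hx => (((hE.differentiableOn one_ne_zero).differentiableAt
      (Metric.isOpen_ball.mem_nhds (hFD hx))).hasFDerivAt).hasFDerivWithinAt) (hinj.mono hFD),
    m2_set (fun x => ENNReal.ofReal (Jh E x)) (jh_meas E hEm).ennreal_ofReal F hF hFD]
  apply setLIntegral_congr_fun hF
  intro x hx
  have hx1 : ‖x‖ < 1 := by simpa using hFD hx
  have hEx1 : ‖E x‖ < 1 := by simpa using hmap (hFD hx)
  have h2 : 0 < 1 - ‖x‖ ^ 2 := by nlinarith [norm_nonneg x]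
  have h3 : 0 < 1 - ‖E x‖ ^ 2 := by nlinarith [norm_nonneg (E x)]
  have h4 := hdz x (hFD hx)
  have h5 : 0 < ‖dz E x‖ ^ 2 - ‖dzb E x‖ ^ 2 := by
    have := norm_nonneg (dzb E x)
    nlinarith
  simp only
  rw [det_eq, ← dzz, abs_of_pos h5, ← ENNReal.ofReal_mul h5.le,
    ← ENNReal.ofReal_mul (by positivity)]
  congr 1
  unfold Jh
  field_simp

private theorem core (hAD1 : StAD1) (hMQ1 : StMQ1) (hMQ2 : StMQ2) (hAV2 : StAV2) (E : ℂ → ℂ)
    (hEm : Measurable E) (r : ℝ) (F : Set ℂ) (hr : r < 1) (hF : MeasurableSet F)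
    (hFr : F ⊆ Metric.closedBall 0 r) (hE : ContDiffOn ℝ 1 E (Metric.ball 0 1))
    (hmap : MapsTo E (Metric.ball 0 1) (Metric.ball 0 1)) (hinj : InjOn E (Metric.ball 0 1))
    (hdz : ∀ z ∈ Metric.ball (0 : ℂ) 1, ‖dzb E z‖ < ‖dz E z‖) :
    Tendsto (fun ε : ℝ => V2 ε F (fun x y z => Ad (E x) (E y) (E z)) / c2 ε) (𝓝[>] 0)
      (𝓝 ((m2 (E '' F)).toReal)) ∧ m2 (E '' F) ≠ ∞ := by
  have := hMQ1.1
  have hsub : Metric.closedBall (0 : ℂ) r ⊆ Metric.ball 0 1 := Metric.closedBall_subset_ball hr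
  have hFD : F ⊆ Metric.ball 0 1 := hFr.trans hsub
  obtain ⟨ρ, hρ0, hρ1, hρ⟩ := rho E hE.continuousOn hmap r hr
  obtain ⟨M, hM0, hM, -⟩ := unif E hE r hr
  have hρ2 : 0 < 1 - ρ ^ 2 := by nlinarith
  have hmF : m2 F < ∞ := (measure_mono hFr).trans_lt (hMQ1.2.2.2.2.2.2 r hr)
  have hJm := jh_meas E hEm
  have hJ0 : ∀ x ∈ F, 0 ≤ Jh E x := by
    intro x hx
    have h4 := hdz x (hFD hx)
    have h5 : 0 < ‖dz E x‖ ^ 2 - ‖dzb E x‖ ^ 2 := by
      have := norm_nonneg (dzb E x)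
      nlinarith
    unfold Jh
    positivity
  set J0 : ℝ := M ^ 2 / (1 - ρ ^ 2) ^ 2 with hJ0def
  have hJ00 : 0 ≤ J0 := by positivity
  have hJb : ∀ x ∈ F, |Jh E x| ≤ J0 := by
    intro x hx
    rw [abs_of_nonneg (hJ0 x hx)]
    have hx1 : ‖x‖ < 1 := by simpa using hFD hx
    have h1 : ‖dz E x‖ ^ 2 - ‖dzb E x‖ ^ 2 ≤ M ^ 2 := by
      rw [dzz]
      have h2 : ‖fderiv ℝ E x 1‖ ≤ M := by
        have := (fderiv ℝ E x).le_opNorm 1
        rw [norm_one, mul_one] at this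
        exact this.trans (hM x (hFr hx))
      have h3 : ‖fderiv ℝ E x Complex.I‖ ≤ M := by
        have := (fderiv ℝ E x).le_opNorm Complex.I
        rw [Complex.norm_I, mul_one] at this
        exact this.trans (hM x (hFr hx))
      calc _ ≤ |dt2 (fderiv ℝ E x 1) (fderiv ℝ E x Complex.I)| := le_abs_self _
        _ ≤ _ := dt2_bound _ _
        _ ≤ M * M := mul_le_mul h2 h3 (norm_nonneg _) hM0
        _ = M ^ 2 := by ring
    have h2 : (1 - ‖x‖ ^ 2) ^ 2 ≤ 1 := by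
      have := norm_nonneg x
      have h3 : ‖x‖ ^ 2 ≤ 1 := by nlinarith
      nlinarith [sq_nonneg ‖x‖]
    have h3 : (1 - ρ ^ 2) ^ 2 ≤ (1 - ‖E x‖ ^ 2) ^ 2 := by
      have h4 : ‖E x‖ ^ 2 ≤ ρ ^ 2 := pow_le_pow_left₀ (norm_nonneg _) (hρ x (hFr hx)) 2
      exact pow_le_pow_left₀ hρ2.le (by linarith) 2
    unfold Jh
    rw [hJ0def]
    apply div_le_div₀ (sq_nonneg M) _ (by positivity) h3
    have h5 : (‖dz E x‖ ^ 2 - ‖dzb E x‖ ^ 2) * (1 - ‖x‖ ^ 2) ^ 2 ≤ M ^ 2 * (1 - ‖x‖ ^ 2) ^ 2 :=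
      mul_le_mul_of_nonneg_right h1 (sq_nonneg _)
    have h6 : M ^ 2 * (1 - ‖x‖ ^ 2) ^ 2 ≤ M ^ 2 * 1 := mul_le_mul_of_nonneg_left h2 (sq_nonneg M)
    linarith
  have hJi : IntegrableOn (Jh E) F m2 :=
    Measure.integrableOn_of_bounded hmF.ne hJm.aestronglyMeasurable (M := J0)
      ((ae_restrict_iff' hF).2 (ae_of_all _ fun x hx => hJb x hx))
  have harea := area_img E hEm F hF hFD hE hmap hinj hdz
  have hfin : ∫⁻ x in F, ENNReal.ofReal (Jh E x) ∂m2 ≠ ∞ := by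
    have h1 : ∫⁻ x in F, ENNReal.ofReal (Jh E x) ∂m2 ≤ ∫⁻ _ in F, ENNReal.ofReal J0 ∂m2 := by
      apply setLIntegral_mono' hF
      intro x hx
      exact ENNReal.ofReal_le_ofReal ((le_abs_self _).trans (hJb x hx))
    rw [setLIntegral_const] at h1
    exact (h1.trans_lt (ENNReal.mul_lt_top ENNReal.ofReal_lt_top hmF)).ne
  have hJeq : (m2 (E '' F)).toReal = ∫ x in F, Jh E x ∂m2 := by
    rw [harea, integral_eq_lintegral_of_nonneg_ae ((ae_restrict_iff' hF).2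
      (ae_of_all _ fun x hx => hJ0 x hx)) hJm.aestronglyMeasurable]
  refine ⟨?_, by rw [harea]; exact hfin⟩
  rw [hJeq]
  set J : ℝ := ∫ x in F, Jh E x ∂m2 with hJ
  obtain ⟨-, c, hc, C, hC, ε0, hε0, hε02, hav⟩ := hAV2
  set m : ℝ := (m2 F).toReal with hm
  have hm0 : 0 ≤ m := ENNReal.toReal_nonneg
  rw [Metric.tendsto_nhdsWithin_nhds]
  intro τ hτ
  set η : ℝ := τ * c / (2 * (C ^ 2 * m + 1)) with hη
  have hη0 : 0 < η := by positivity
  obtain ⟨ε1, hε1, hest⟩ := est hAD1 E hE hmap r hr η hη0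
  refine ⟨min ε0 (min ε1 (τ * c / (2 * (|J| * C + 1)))), by positivity, ?_⟩
  intro ε hεpos hεd
  have hε : 0 < ε := hεpos
  rw [Real.dist_eq, sub_zero, abs_of_pos hε] at hεd
  have ha0 : ε < ε0 := hεd.trans_le (min_le_left _ _)
  have ha1 : ε < ε1 := hεd.trans_le ((min_le_right _ _).trans (min_le_left _ _))
  have ha2 : ε < τ * c / (2 * (|J| * C + 1)) :=
    hεd.trans_le ((min_le_right _ _).trans (min_le_right _ _))
  have hεlt : ε < 1 := by linarith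
  obtain ⟨hc2, hmB, hD⟩ := hav ε hε ha0
  set D2 : ℝ := 2 * ∫ p : ℂ × ℂ, K2 ε 0 p.1 p.2 * dt2 p.1 p.2 ∂(m2.prod m2) with hD2
  set I : ℂ → ℝ := fun x => ∫ p : ℂ × ℂ, K2 ε x p.1 p.2 * Ad (E x) (E p.1) (E p.2)
    ∂(m2.prod m2) with hI
  have hV : V2 ε F (fun x y z => Ad (E x) (E y) (E z)) = ∫ x in F, I x ∂m2 := rfl
  have hbB : ((m2.prod m2) (Metric.ball (0 : ℂ) ε ×ˢ Metric.ball (0 : ℂ) ε)).toReal ≤
      (C * ε ^ 2) ^ 2 := by
    rw [Measure.prod_prod, ENNReal.toReal_mul, sq (C * ε ^ 2)]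
    have h1 : (m2 (Metric.ball (0 : ℂ) ε)).toReal ≤ C * ε ^ 2 := by
      have := ENNReal.toReal_mono ENNReal.ofReal_ne_top hmB
      rwa [ENNReal.toReal_ofReal (by positivity)] at this
    exact mul_le_mul h1 h1 ENNReal.toReal_nonneg (by positivity)
  have hpt : ∀ x ∈ F, |I x - Jh E x * D2| ≤ η * C ^ 2 * ε ^ 8 := by
    intro x hx
    have h1 := inner_est hAD1 hMQ1 hMQ2 E hEm hmap x (hFD hx) ε η hε hεlt
      (fun u v hu hv => hest x (hFr hx) ε ha1 u v hu hv)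
    refine h1.trans ?_
    have h2 := mul_le_mul_of_nonneg_left hbB (by positivity : 0 ≤ ε ^ 2 * (η * ε ^ 2))
    refine h2.trans (le_of_eq ?_)
    ring
  have hKm : Measurable (fun p : ℂ × ℂ × ℂ => K2 ε p.1 p.2.1 p.2.2) := (hMQ2 ε hε hεlt).2.2.2.1
  have hAm : Measurable (fun p : ℂ × ℂ × ℂ => Ad p.1 p.2.1 p.2.2) := hAD1.2.2.2.1
  have hIm : Measurable I := by
    have h1 := comp3 (α := ℂ × ℂ × ℂ) Ad hAm (fun q => E q.1) (fun q => E q.2.1)
      (fun q => E q.2.2) (hEm.comp measurable_fst)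
      (hEm.comp (measurable_fst.comp measurable_snd))
      (hEm.comp (measurable_snd.comp measurable_snd))
    have h2 : Measurable (fun q : ℂ × ℂ × ℂ => K2 ε q.1 q.2.1 q.2.2 *
        Ad (E q.1) (E q.2.1) (E q.2.2)) := hKm.mul h1
    have h3 := StronglyMeasurable.integral_prod_right (ν := m2.prod m2)
      (f := fun (x : ℂ) (p : ℂ × ℂ) => K2 ε x p.1 p.2 * Ad (E x) (E p.1) (E p.2))
      h2.stronglyMeasurable
    exact h3.measurable
  have hIi : IntegrableOn I F m2 := by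
    refine Measure.integrableOn_of_bounded hmF.ne hIm.aestronglyMeasurable
      (M := J0 * |D2| + η * C ^ 2 * ε ^ 8)
      ((ae_restrict_iff' hF).2 (ae_of_all _ fun x hx => ?_))
    rw [Real.norm_eq_abs]
    have h1 := hpt x hx
    have h2 : |Jh E x * D2| ≤ J0 * |D2| := by
      rw [abs_mul]
      exact mul_le_mul_of_nonneg_right (hJb x hx) (abs_nonneg _)
    have h3 : I x = Jh E x * D2 + (I x - Jh E x * D2) := by ring
    rw [h3]
    exact (abs_add_le _ _).trans (add_le_add h2 h1)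
  have hdiff : |(∫ x in F, I x ∂m2) - J * D2| ≤ η * C ^ 2 * ε ^ 8 * m := by
    have h1 : (∫ x in F, I x ∂m2) - J * D2 = ∫ x in F, (I x - Jh E x * D2) ∂m2 := by
      rw [integral_sub hIi (hJi.mul_const D2), integral_mul_const]
    rw [h1]
    have h2 := norm_setIntegral_le_of_norm_le_const (μ := m2) (s := F)
      (f := fun x => I x - Jh E x * D2) (C := η * C ^ 2 * ε ^ 8) hmF
      (fun x hx => (Real.norm_eq_abs _).le.trans (hpt x hx))
    exact h2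
  rw [hV, Real.dist_eq]
  have hc20 : 0 < c2 ε := lt_of_lt_of_le (by positivity) hc2
  have e1 : (∫ x in F, I x ∂m2) / c2 ε - J =
      ((∫ x in F, I x ∂m2) - J * D2) / c2 ε - J * (c2 ε - D2) / c2 ε := by
    field_simp
    ring
  rw [e1]
  have e2 : |((∫ x in F, I x ∂m2) - J * D2) / c2 ε| < τ / 2 := by
    rw [abs_div, abs_of_pos hc20, div_lt_iff₀ hc20]
    have h1 : η * C ^ 2 * ε ^ 8 * m < τ / 2 * (c * ε ^ 8) := by
      have h2 : η * (C ^ 2 * m + 1) = τ * c / 2 := by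
        rw [hη]; field_simp
      have h3 : 0 < ε ^ 8 := by positivity
      have h4 : η * (C ^ 2 * m) < τ * c / 2 := by
        rw [← h2]
        have : η * (C ^ 2 * m + 1) = η * (C ^ 2 * m) + η := by ring
        linarith
      have h5 := mul_lt_mul_of_pos_right h4 h3
      calc η * C ^ 2 * ε ^ 8 * m = η * (C ^ 2 * m) * ε ^ 8 := by ring
        _ < τ * c / 2 * ε ^ 8 := h5
        _ = τ / 2 * (c * ε ^ 8) := by ring
    have h2 : τ / 2 * (c * ε ^ 8) ≤ τ / 2 * c2 ε := mul_le_mul_of_nonneg_left hc2 (by positivity)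
    linarith
  have e3 : |J * (c2 ε - D2) / c2 ε| ≤ τ / 2 := by
    rw [abs_div, abs_mul, abs_of_pos hc20, div_le_iff₀ hc20]
    have h1 : |J| * |c2 ε - D2| ≤ |J| * (C * ε ^ 9) := mul_le_mul_of_nonneg_left hD (abs_nonneg _)
    rw [lt_div_iff₀ (by positivity)] at ha2
    have h2 : |J| * C * ε ≤ τ * c / 2 := by nlinarith
    have h3 := mul_le_mul_of_nonneg_right h2 (by positivity : 0 ≤ ε ^ 8)
    have h4 : τ / 2 * (c * ε ^ 8) ≤ τ / 2 * c2 ε := mul_le_mul_of_nonneg_left hc2 (by positivity)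
    calc |J| * |c2 ε - D2| ≤ |J| * (C * ε ^ 9) := h1
      _ = |J| * C * ε * ε ^ 8 := by ring
      _ ≤ τ * c / 2 * ε ^ 8 := h3
      _ = τ / 2 * (c * ε ^ 8) := by ring
      _ ≤ _ := h4
  calc _ ≤ |((∫ x in F, I x ∂m2) - J * D2) / c2 ε| + |J * (c2 ε - D2) / c2 ε| := abs_sub _ _
    _ < τ / 2 + τ / 2 := add_lt_add_of_lt_of_le e2 e3
    _ = τ := by ring

theorem hAV3 (hAD1 : StAD1) (hMQ1 : StMQ1) (hMQ2 : StMQ2) (hAV2 : StAV2) : StAV3 := by
  intro E r F hr hF hFr hE hmap hinj hdz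
  have := hMQ1.1
  set E1 : ℂ → ℂ := (Metric.ball (0 : ℂ) 1).indicator E with hE1
  have hFD : F ⊆ Metric.ball 0 1 := hFr.trans (Metric.closedBall_subset_ball hr)
  have heq : ∀ z ∈ Metric.ball (0 : ℂ) 1, E1 z = E z := fun z hz => indicator_of_mem hz E
  have hE1m : Measurable E1 := by
    classical
    have h1 : Measurable ((Metric.ball (0 : ℂ) 1).piecewise E 0) :=
      hE.continuousOn.measurable_piecewise continuousOn_const Metric.isOpen_ball.measurableSet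
    rwa [piecewise_eq_indicator] at h1
  have hE1c : ContDiffOn ℝ 1 E1 (Metric.ball 0 1) := hE.congr heq
  have hmap1 : MapsTo E1 (Metric.ball 0 1) (Metric.ball 0 1) := fun z hz => by
    rw [heq z hz]; exact hmap hz
  have hinj1 : InjOn E1 (Metric.ball 0 1) := fun z hz w hw h => by
    rw [heq z hz, heq w hw] at h
    exact hinj hz hw h
  have hfd : ∀ z ∈ Metric.ball (0 : ℂ) 1, fderiv ℝ E1 z = fderiv ℝ E z := by
    intro z hz
    apply Filter.EventuallyEq.fderiv_eq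
    filter_upwards [Metric.isOpen_ball.mem_nhds hz] with w hw using heq w hw
  have hdz1 : ∀ z ∈ Metric.ball (0 : ℂ) 1, ‖dzb E1 z‖ < ‖dz E1 z‖ := by
    intro z hz
    have h1 := hdz z hz
    unfold dz dzb at h1 ⊢
    rw [hfd z hz]
    exact h1
  have hEF : E '' F = E1 '' F := image_congr fun z hz => (heq z (hFD hz)).symm
  have hV : ∀ ε : ℝ, V2 ε F (fun x y z => Ad (E x) (E y) (E z)) =
      V2 ε F (fun x y z => Ad (E1 x) (E1 y) (E1 z)) := by
    intro ε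
    unfold V2
    apply setIntegral_congr_fun hF
    intro x hx
    apply integral_congr_ae
    have h5 : ∀ᵐ z ∂m2, z ∈ Metric.ball (0 : ℂ) 1 := by
      rw [ae_iff]; exact hMQ1.2.1
    have h6 := Measure.quasiMeasurePreserving_fst (μ := m2) (ν := m2) |>.ae h5
    have h7 := Measure.quasiMeasurePreserving_snd (μ := m2) (ν := m2) |>.ae h5
    filter_upwards [h6, h7] with p hp1 hp2
    rw [heq x (hFD hx), heq _ hp1, heq _ hp2]
  rw [hEF]
  obtain ⟨h1, h2⟩ := core hAD1 hMQ1 hMQ2 hAV2 E1 hE1m r F hr hF hFr hE1c hmap1 hinj1 hdz1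
  refine ⟨h1.congr fun ε => ?_, h2⟩
  rw [hV ε]

end Pool.Agent.Helper12.QA
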