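import Pool.Agent.Helper86.QA.St3

/-!
# Project QD, part A, module PIX: the equivariant map
-/

set_option autoImplicit false

open MeasureTheory Matrix Set Topology
open scoped ENNReal ComplexConjugate

namespace Pool.Agent.Helper12.QA

open Pool.Agent.Helper86.QA

private theorem pix_cont (g : SL) (z₀ : ℂ) (h : g 1 0 * z₀ + g 1 1 ≠ 0) :
    Filter.Tendsto (fun p : ℝ × ℂ => ga g (p.2, p.1)) (𝓝 (0, z₀)) (𝓝 (mb g z₀, 0)) := by
  have hd : den g (z₀, 0) ≠ 0 := by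
    unfold den
    have : 0 < ‖g 1 0 * z₀ + g 1 1‖ := norm_pos_iff.2 h
    simp only
    positivity
  have hv : ga g (z₀, 0) = (mb g z₀, 0) := by
    unfold ga mb
    have e1 : (den g (z₀, 0) : ℂ) = (g 1 0 * z₀ + g 1 1) * conj (g 1 0 * z₀ + g 1 1) := by
      unfold den
      rw [Complex.mul_conj, Complex.normSq_eq_norm_sq]
      push_cast
      simp
    apply Prod.ext
    · simp only [Complex.ofReal_zero, ne_eq, OfNat.ofNat_ne_zero, not_false_eq_true, zero_pow,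
        mul_zero, add_zero]
      rw [e1]
      have h2 : conj (g 1 0 * z₀ + g 1 1) ≠ 0 := (map_ne_zero _).2 h
      exact mul_div_mul_right _ _ h2
    · simp
  rw [← hv]
  have hc : Continuous (fun p : ℝ × ℂ => den g (p.2, p.1)) := by
    unfold den; fun_prop
  have h1 : ContinuousAt (fun p : ℝ × ℂ => ga g (p.2, p.1)) (0, z₀) := by
    unfold ga
    apply ContinuousAt.prodMk
    · apply ContinuousAt.div
      · simp only
        fun_prop
      · exact (Complex.continuous_ofReal.comp hc).continuousAt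
      · exact_mod_cast hd
    · apply ContinuousAt.div
      · exact continuousAt_fst
      · exact hc.continuousAt
      · exact hd
  exact h1

private theorem pix_bound (hACT : StACT) (g : SL) (z₀ : ℂ) (h : g 1 0 * z₀ + g 1 1 ≠ 0) :
    ∃ C : ℝ, 0 ≤ C ∧ ∀ᶠ p : ℝ × ℂ in 𝓝 (0, z₀), 0 < p.1 →
      ‖(ga g (p.2, p.1)).1 - mb g p.2‖ ≤ C * p.1 ^ 2 := by
  set m : ℝ := ‖g 1 0 * z₀ + g 1 1‖ / 2 with hm
  have hm0 : 0 < m := by
    have : 0 < ‖g 1 0 * z₀ + g 1 1‖ := norm_pos_iff.2 h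
    positivity
  refine ⟨‖g 1 0‖ / m ^ 3, by positivity, ?_⟩
  have hc : Continuous (fun p : ℝ × ℂ => ‖g 1 0 * p.2 + g 1 1‖) := by fun_prop
  have h1 : ∀ᶠ p : ℝ × ℂ in 𝓝 (0, z₀), m < ‖g 1 0 * p.2 + g 1 1‖ := by
    have h2 : (fun p : ℝ × ℂ => ‖g 1 0 * p.2 + g 1 1‖) (0, z₀) ∈ Ioi m := by
      simp only [mem_Ioi]
      linarith
    exact hc.continuousAt.eventually (isOpen_Ioi.mem_nhds h2)
  filter_upwards [h1] with p hp hp0
  have hne : g 1 0 * p.2 + g 1 1 ≠ 0 := by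
    rw [← norm_pos_iff]; linarith
  have h6 := hACT.2.2.2.2.2 g (p.2, p.1) hp0 hne
  simp only at h6
  rw [h6, norm_div, norm_mul, norm_mul, norm_pow]
  have e1 : ‖conj (g 1 0)‖ = ‖g 1 0‖ := by simp
  have e2 : ‖(p.1 : ℂ)‖ = p.1 := by simp [abs_of_pos hp0]
  have hden : m ^ 2 ≤ den g (p.2, p.1) := by
    unfold den
    simp only
    nlinarith [sq_nonneg (‖g 1 0‖ * p.1), mul_pow ‖g 1 0‖ p.1 2]
  have e3 : ‖(den g (p.2, p.1) : ℂ)‖ = den g (p.2, p.1) := by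
    rw [Complex.norm_real, Real.norm_eq_abs, abs_of_nonneg (le_trans (by positivity) hden)]
  rw [e1, e2, e3]
  have h7 : m ^ 3 ≤ den g (p.2, p.1) * ‖g 1 0 * p.2 + g 1 1‖ := by
    calc m ^ 3 = m ^ 2 * m := by ring
      _ ≤ _ := mul_le_mul hden hp.le hm0.le (le_trans (by positivity) hden)
  calc ‖g 1 0‖ * p.1 ^ 2 / (den g (p.2, p.1) * ‖g 1 0 * p.2 + g 1 1‖) ≤
      ‖g 1 0‖ * p.1 ^ 2 / m ^ 3 :=
        div_le_div_of_nonneg_left (by positivity) (by positivity) h7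
    _ = ‖g 1 0‖ / m ^ 3 * p.1 ^ 2 := by ring

private theorem mb_diff (g : SL) (p : ℂ) (h : g 1 0 * p + g 1 1 ≠ 0) :
    DifferentiableAt ℂ (mb g) p := by
  unfold mb
  exact ((differentiableAt_id.const_mul _).add_const _).div
    ((differentiableAt_id.const_mul _).add_const _) h

/-- the local estimate -/
private theorem pix_local (hACT : StACT) (hCHV : StCHV) (hARC : StARC)
    {Γ : Type} [Group Γ] (ρ : Γ →* SL) (A B : Set ℂ) (hK : KD ρ A B) (F : ℂ → ℂ) (σ : Γ →* SL)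
    (hF : CF ρ A F σ) (γ : Γ) (z₀ : ℂ) (hz : z₀ ∈ A) :
    ∃ C : ℝ, 0 ≤ C ∧ ∀ᶠ p : ℝ × ℂ in 𝓝 (0, z₀), 0 < p.1 →
      ‖mb (σ γ⁻¹) (F (ga (ρ γ) (p.2, p.1)).1) - F p.2‖ ≤ C * p.1 ^ 2 := by
  obtain ⟨hne, hmA⟩ := hK.mpA γ z₀ hz
  obtain ⟨C₁, hC₁, hb⟩ := pix_bound hACT (ρ γ) z₀ hne
  have hFH : ∀ y ∈ A, F y ∈ HP := fun y hy => hF.img ▸ mem_image_of_mem F hy
  have hd : DifferentiableOn ℂ (fun y => mb (σ γ⁻¹) (F y)) A := by
    intro y hy
    have h1 := (hF.dif y hy)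
    have h2 := mb_diff (σ γ⁻¹) (F y) (hARC.2.2.2.1 _ (hF.rea _) _ (hFH y hy)).2.1
    exact DifferentiableAt.comp_differentiableWithinAt y h2 h1
  have han := hd.analyticAt (hK.opA.mem_nhds hmA)
  obtain ⟨L, T, hT, hL⟩ := (han.contDiffAt (n := 1)).exists_lipschitzOnWith
  refine ⟨L * C₁, mul_nonneg L.coe_nonneg hC₁, ?_⟩
  have ht1 : Filter.Tendsto (fun p : ℝ × ℂ => (ga (ρ γ) (p.2, p.1)).1) (𝓝 (0, z₀))
      (𝓝 (mb (ρ γ) z₀)) := (continuous_fst.tendsto _).comp (pix_cont (ρ γ) z₀ hne)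
  have ht2 : Filter.Tendsto (fun p : ℝ × ℂ => mb (ρ γ) p.2) (𝓝 (0, z₀))
      (𝓝 (mb (ρ γ) z₀)) :=
    (mb_diff (ρ γ) z₀ hne).continuousAt.tendsto.comp (continuous_snd.tendsto (0, z₀))
  have hA : ∀ᶠ p : ℝ × ℂ in 𝓝 (0, z₀), p.2 ∈ A :=
    (continuous_snd.tendsto ((0 : ℝ), z₀)).eventually (hK.opA.mem_nhds hz)
  filter_upwards [hb, ht1.eventually hT, ht2.eventually hT, hA] with p h1 h2 h3 h4 hp
  have h5 := hL.norm_sub_le h2 h3
  have h6 : mb (σ γ⁻¹) (F (mb (ρ γ) p.2)) = F p.2 := by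
    rw [hF.equ γ p.2 h4]
    have h7 := (hARC.2.2.2.1 _ (hF.rea γ) _ (hFH _ h4)).2.1
    rw [← (hCHV.2.1 (σ γ⁻¹) (σ γ) (F p.2) h7).1, ← map_mul, inv_mul_cancel, map_one]
    exact hCHV.2.2.2.1 _
  rw [h6] at h5
  calc _ ≤ _ := h5
    _ ≤ L * (C₁ * p.1 ^ 2) := mul_le_mul_of_nonneg_left (h1 hp) L.coe_nonneg
    _ = L * C₁ * p.1 ^ 2 := by ring

/-- the estimate on compact sets, for one element of the group -/
private theorem pix_compact (hACT : StACT) (hCHV : StCHV) (hARC : StARC)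
    {Γ : Type} [Group Γ] (ρ : Γ →* SL) (A B : Set ℂ) (hK : KD ρ A B) (F : ℂ → ℂ) (σ : Γ →* SL)
    (hF : CF ρ A F σ) (K : Set ℂ) (hKc : IsCompact K) (hKA : K ⊆ A) (γ : Γ) :
    ∃ C : ℝ, 0 ≤ C ∧ ∀ᶠ t : ℝ in 𝓝 0, ∀ z ∈ K, 0 < t →
      ‖mb (σ γ⁻¹) (F (ga (ρ γ) (z, t)).1) - F z‖ ≤ C * t ^ 2 := by
  refine IsCompact.induction_on (p := fun S => ∃ C : ℝ, 0 ≤ C ∧ ∀ᶠ t : ℝ in 𝓝 0, ∀ z ∈ S, 0 < t →
      ‖mb (σ γ⁻¹) (F (ga (ρ γ) (z, t)).1) - F z‖ ≤ C * t ^ 2) hKc ?_ ?_ ?_ ?_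
  · exact ⟨0, le_rfl, Filter.Eventually.of_forall fun t z hz => absurd hz (notMem_empty z)⟩
  · rintro s t hst ⟨C, hC, h⟩
    refine ⟨C, hC, ?_⟩
    filter_upwards [h] with a ha z hz
    exact ha z (hst hz)
  · rintro s t ⟨C, hC, h⟩ ⟨C', hC', h'⟩
    refine ⟨C + C', add_nonneg hC hC', ?_⟩
    filter_upwards [h, h'] with a ha ha' z hz ha0
    rcases hz with hz | hz
    · refine (ha z hz ha0).trans ?_
      nlinarith [mul_nonneg hC' (sq_nonneg a)]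
    · refine (ha' z hz ha0).trans ?_
      nlinarith [mul_nonneg hC (sq_nonneg a)]
  · intro z₀ hz₀
    obtain ⟨C, hC, h⟩ := pix_local hACT hCHV hARC ρ A B hK F σ hF γ z₀ (hKA hz₀)
    rw [nhds_prod_eq, Filter.eventually_prod_iff] at h
    obtain ⟨pa, hpa, pb, hpb, hab⟩ := h
    refine ⟨{z | pb z}, mem_nhdsWithin_of_mem_nhds hpb, C, hC, ?_⟩
    filter_upwards [hpa] with t ht z hz ht0
    exact hab ht hz ht0

/-- near `A` some translate is in `V × (0,1)` -/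
private theorem pix_reach (hACT : StACT) {Γ : Type} [Group Γ] (ρ : Γ →* SL) (A B : Set ℂ)
    (hK : KD ρ A B) (K V : Set ℂ) (hKc : IsCompact K) (hKA : K ⊆ A) (hV : IsOpen V)
    (hr : ∀ ξ ∈ A, ∃ γ : Γ, ab ρ γ ξ ∈ V) :
    ∀ᶠ t : ℝ in 𝓝 0, ∀ z ∈ K, 0 < t → ∃ δ : Γ, au ρ δ (z, t) ∈ V ×ˢ Ioo (0 : ℝ) 1 := by
  apply hKc.eventually_forall_of_forall_eventually
  intro z₀ hz₀
  obtain ⟨δ, hδ⟩ := hr z₀ (hKA hz₀)
  obtain ⟨hne, hmA⟩ := hK.mpA δ z₀ (hKA hz₀)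
  have h1 := pix_cont (ρ δ) z₀ hne
  have h2 : V ×ˢ Iio (1 : ℝ) ∈ 𝓝 ((mb (ρ δ) z₀, 0) : Pt) :=
    (hV.prod isOpen_Iio).mem_nhds ⟨hδ, by norm_num⟩
  filter_upwards [h1.eventually h2] with p hp hp0
  refine ⟨δ, hp.1, ?_, hp.2⟩
  exact (hACT.1 (ρ δ) (p.2, p.1) hp0).2.1

theorem hPIX (hACT : StACT) (hCHV : StCHV) (hACU : StACU) (hPD2 : StPD2) (hPD3 : StPD3)
    (hCPA : StCPA) (hARC : StARC) : StPIX := by
  intro Γ _ ρ A B hK F σ hF
  obtain ⟨KA, hKAc, hKAA, hKAr, -, -⟩ := hCPA Γ ρ A B hK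
  obtain ⟨hcount, hact, -, -, -, -, -⟩ := hACU Γ ρ A B hK
  obtain ⟨L, hLc, hKL, hLA⟩ := exists_compact_between hKAc hK.opA hKAA
  have hVo : IsOpen (interior L) := isOpen_interior
  have hUo : IsOpen (interior L ×ˢ Ioo (0 : ℝ) 1) := hVo.prod isOpen_Ioo
  have hUup : interior L ×ˢ Ioo (0 : ℝ) 1 ⊆ up := fun x hx => hx.2.1
  obtain ⟨D, hD, hDU⟩ := (hPD3 Γ ρ A B hK).1 _ hUo hUup
  have hFH : ∀ y ∈ A, F y ∈ HP := fun y hy => hF.img ▸ mem_image_of_mem F hy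
  set U : Set Pt := interior L ×ˢ Ioo (0 : ℝ) 1 with hU
  classical
  set G : Pt → ℂ := U.piecewise (fun y => F y.1) (fun _ => Complex.I) with hG
  have hGm : Measurable G := by
    apply ContinuousOn.measurable_piecewise _ continuousOn_const hUo.measurableSet
    have h1 : ContinuousOn F A := hF.dif.continuousOn
    exact h1.comp continuous_fst.continuousOn (fun y hy => hLA (interior_subset hy.1))
  have hI : Complex.I ∈ HP := by
    show 0 < Complex.I.im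
    simp
  have hGU : ∀ y ∈ U, G y = F y.1 := fun y hy => piecewise_eq_of_mem _ _ _ hy
  have hGH : ∀ y, G y ∈ HP := by
    intro y
    by_cases hy : y ∈ U
    · rw [hGU y hy]
      exact hFH _ (hLA (interior_subset hy.1))
    · have : G y = Complex.I := piecewise_eq_of_notMem _ _ _ hy
      rw [this]; exact hI
  set sel : Pt → Γ := fun x => if h : x ∈ up then (hD.ex x h).choose else 1 with hseldef
  have hsel : ∀ x ∈ up, au ρ (sel x) x ∈ D := by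
    intro x hx
    have h1 : sel x = (hD.ex x hx).choose := by simp only [hseldef, dif_pos hx]
    rw [h1]
    exact (hD.ex x hx).choose_spec.1
  have hselu : ∀ x ∈ up, ∀ γ : Γ, au ρ γ x ∈ D → γ = sel x := by
    intro x hx γ hγ
    exact (hD.ex x hx).unique hγ (hsel x hx)
  set Pi : Pt → ℂ := fun x => if x ∈ up then mb (σ (sel x)⁻¹) (G (au ρ (sel x) x)) else Complex.I
    with hPidef
  have hPiu : ∀ x ∈ up, Pi x = mb (σ (sel x)⁻¹) (G (au ρ (sel x) x)) := by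
    intro x hx
    simp only [hPidef, if_pos hx]
  have hPin : ∀ x, x ∉ up → Pi x = Complex.I := by
    intro x hx
    simp only [hPidef, if_neg hx]
  have hup : ∀ (γ : Γ) (x : Pt), x ∈ up → au ρ γ x ∈ up := hact.ms
  refine ⟨Pi, ⟨?_, ?_, ?_⟩, ?_⟩
  · -- measurable
    intro s hs
    have e1 : Pi ⁻¹' s = (upᶜ ∩ (fun _ : Pt => Complex.I) ⁻¹' s) ∪ ⋃ γ : Γ, ((up ∩ au ρ γ ⁻¹' D) ∩
        (fun x => mb (σ γ⁻¹) (G (au ρ γ x))) ⁻¹' s) := by
      ext x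
      simp only [mem_preimage, mem_union, mem_inter_iff, mem_compl_iff, mem_iUnion]
      by_cases hx : x ∈ up
      · rw [hPiu x hx]
        constructor
        · intro h
          exact Or.inr ⟨sel x, ⟨hx, hsel x hx⟩, h⟩
        · rintro (h | ⟨γ, ⟨-, h1⟩, h2⟩)
          · exact absurd hx h.1
          · rw [← hselu x hx γ h1]; exact h2
      · rw [hPin x hx]
        constructor
        · intro h
          exact Or.inl ⟨hx, h⟩
        · rintro (h | ⟨γ, ⟨h0, -⟩, -⟩)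
          · exact h.2
          · exact absurd h0 hx
    rw [e1]
    apply MeasurableSet.union
    · exact up_meas.compl.inter (measurable_const hs)
    · apply MeasurableSet.iUnion
      intro γ
      apply (up_meas.inter (hact.me γ hD.mD)).inter
      exact ((hCHV.2.2.2.2 (σ γ⁻¹)).comp (hGm.comp (hact.me γ))) hs
  · -- values
    intro x
    by_cases hx : x ∈ up
    · rw [hPiu x hx]
      exact (hARC.2.2.2.1 _ (hF.rea _) _ (hGH _)).1
    · rw [hPin x hx]; exact hI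
  · -- equivariance
    intro δ x hx
    have hx' := hup δ x hx
    have e1 : sel (au ρ δ x) = sel x * δ⁻¹ := by
      symm
      apply hselu _ hx'
      rw [← hact.mul _ _ _ hx, inv_mul_cancel_right]
      exact hsel x hx
    rw [hPiu _ hx', hPiu x hx, e1, ← hact.mul _ _ _ hx, inv_mul_cancel_right, _root_.mul_inv_rev, inv_inv,
      map_mul]
    have h1 := (hARC.2.2.2.1 _ (hF.rea (sel x)⁻¹) _ (hGH (au ρ (sel x) x))).2.1
    exact (hCHV.2.1 (σ δ) (σ (sel x)⁻¹) _ h1).1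
  · -- the estimate
    intro K hKc hKA
    have hfin := (hPD2 Γ ρ A B hK K L 1 1 hKc (hKA.trans subset_union_left) hLc
      (hLA.trans subset_union_left)).1
    set S : Set Γ := {γ : Γ | ∃ x ∈ up, x.1 ∈ K ∧ x.2 ≤ 1 ∧ (au ρ γ x).1 ∈ L ∧
      (au ρ γ x).2 ≤ 1} with hS
    have hloc := fun γ : Γ => pix_compact hACT hCHV hARC ρ A B hK F σ hF K hKc hKA γ
    choose C hC0 hCe using hloc
    have hreach := pix_reach hACT ρ A B hK K (interior L) hKc hKA hVo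
      (fun ξ hξ => (hKAr ξ hξ).imp fun γ h => hKL h)
    have hall : ∀ᶠ t : ℝ in 𝓝 0, ∀ γ ∈ S, ∀ z ∈ K, 0 < t →
        ‖mb (σ γ⁻¹) (F (ga (ρ γ) (z, t)).1) - F z‖ ≤ C γ * t ^ 2 :=
      (Filter.eventually_all_finite hfin).2 (fun γ _ => hCe γ)
    obtain ⟨ε, hε, hball⟩ := Metric.eventually_nhds_iff.1 (hreach.and hall)
    have hsum : ∀ γ ∈ S, C γ ≤ ∑ γ ∈ hfin.toFinset, C γ := fun γ hγ =>
      Finset.single_le_sum (fun i _ => hC0 i) (hfin.mem_toFinset.2 hγ)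
    have hsum0 : 0 ≤ ∑ γ ∈ hfin.toFinset, C γ := Finset.sum_nonneg fun i _ => hC0 i
    refine ⟨∑ γ ∈ hfin.toFinset, C γ + 1, by positivity, min ε 1, by positivity, ?_⟩
    intro z hz t ht0 ht
    have hd : dist t 0 < ε := by
      rw [Real.dist_eq, sub_zero, abs_of_pos ht0]
      exact lt_of_lt_of_le ht (min_le_left _ _)
    obtain ⟨h1, h2⟩ := hball hd
    obtain ⟨δ, hδ⟩ := h1 z hz ht0
    have hx : ((z, t) : Pt) ∈ up := ht0
    have hy := hup (sel (z, t)) _ hx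
    have e1 : au ρ (δ * (sel (z, t))⁻¹) (au ρ (sel (z, t)) (z, t)) = au ρ δ (z, t) := by
      rw [← hact.mul _ _ _ hx, inv_mul_cancel_right]
    have hyU : au ρ (sel (z, t)) (z, t) ∈ U := by
      apply hDU _ (hsel _ hx) (δ * (sel (z, t))⁻¹)
      rw [e1]; exact hδ
    have hγS : sel (z, t) ∈ S :=
      ⟨(z, t), hx, hz, (lt_of_lt_of_le ht (min_le_right _ _)).le, interior_subset hyU.1,
        hyU.2.2.le⟩
    rw [hPiu _ hx, hGU _ hyU]
    refine (h2 _ hγS z hz ht0).trans ?_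
    have h3 := hsum _ hγS
    exact mul_le_mul_of_nonneg_right (by linarith) (sq_nonneg t)

end Pool.Agent.Helper12.QA
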